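import Pool.Agent.H39.TZ.Pf2

/-!
# [H83 RT Nz] THEOREM R (MP_e49dc9_ag): a real class which has degree zero on all curves is zero

`dz_inter`: the degrees `dz` and the intersection numbers with a curve are proportional.  `num_zero`.
-/

set_option autoImplicit false

namespace Pool.Agent.H83.RT

open Pool.Agent.H54.RV Pool.Agent.H83.TU Pool.Agent.H83.TK Pool.Agent.H20.TD Pool.Agent.H20.TP
open Pool.Agent.H24.VP (RR)
open Pool.Agent.H39.TZ

variable {k K : Type} [Field k] [Field K] [Algebra k K] {X : Mod k K} {r : ℕ}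
  {ν : Cart X →* Multiplicative (Fin r → ℤ)} {T : Cart X → Cart X → Cart X → ℝ} {l : Cart X → ℝ} {c : ℝ} {TR : Tri3 r}

theorem dz_inter [CharZero k] [IsAlgClosed k] (hX : IsVar X) (hA : ∃ A : Cart X, Ample A) (C : Curve X) (W W₀ : Cart X) :
    inter W₀ C * dz hX C.ζ W = inter W C * dz hX C.ζ W₀ := by
  have h1 : inter (W ^ inter W₀ C * W₀ ^ (-inter W C)) C = 0 := by
    have hzp : ∀ (D : Cart X) (n : ℤ), inter (D ^ n) C = n * inter D C := by
      intro D n
      obtain ⟨m, rfl | rfl⟩ := n.eq_nat_or_neg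
      · rw [zpow_natCast, inter_pow hX]
      · rw [zpow_neg, zpow_natCast, inter_inv hX, inter_pow hX]
        ring
    rw [inter_mul hX, hzp, hzp]
    ring
  have h2 := dz_zero hX hA _ C.trdeg h1
  have hzp : ∀ (D : Cart X) (n : ℤ), dz hX C.ζ (D ^ n) = n * dz hX C.ζ D := by
    intro D n
    obtain ⟨m, rfl | rfl⟩ := n.eq_nat_or_neg
    · rw [zpow_natCast, dz_pow hX hA C.trdeg]
    · rw [zpow_neg, zpow_natCast, dz_inv hX hA C.trdeg, dz_pow hX hA C.trdeg]
      ring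
  rw [dz_mul hX hA C.trdeg, hzp, hzp] at h2
  linarith

/-- a real class of degree zero on all curves is zero -/
theorem num_zero [CharZero k] [IsAlgClosed k] [T0Space X.P] (h : Hyp X) (hr : RR T l c) (hν : NumR ν)
    (hT : ∀ U V W, TR (Pool.Agent.H20.TP.cR ν U) (Pool.Agent.H20.TP.cR ν V) (Pool.Agent.H20.TP.cR ν W) = T U V W)
    {v : Fin r → ℝ} (hv : ∀ x : X.P, Algebra.trdeg k (X.kap x) = 1 → dR hν h.var x v = 0) : v = 0 := by
  obtain ⟨b, hb⟩ := exists_b h.var h.amp hν (nt_of h hr hν hT (nak_r h hr hν hT))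
  have hfd := fd_of_basis h.var b
  obtain ⟨A, hA⟩ := h.amp
  have h0 : pt b v = 0 := by
    refine N1.ext' fun C => ?_
    rw [fn_zero]
    obtain ⟨L, hL⟩ : ∃ L : (Fin r → ℝ) →ₗ[ℝ] ℝ, ∀ w, L w = (pt b w).fn C :=
      ⟨(evL C).comp ({ toFun := pt b, map_add' := pt_add b, map_smul' := pt_smul b } : (Fin r → ℝ) →ₗ[ℝ] N1 X),
        fun w => rfl⟩
    have h1 : ((inter A C : ℤ) : ℝ) • dR hν h.var C.ζ = ((dz h.var C.ζ A : ℤ) : ℝ) • L := ext_uniq hν fun D => by
      rw [LinearMap.smul_apply, LinearMap.smul_apply, hL, ← hb, cl_fn, dR_ci hν h.var ⟨A, hA⟩ C.trdeg,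
        smul_eq_mul, smul_eq_mul]
      have h2 := dz_inter h.var ⟨A, hA⟩ C D A
      have h3 : ((inter A C : ℤ) : ℝ) * ((dz h.var C.ζ D : ℤ) : ℝ) = ((inter D C : ℤ) : ℝ) * ((dz h.var C.ζ A : ℤ) : ℝ) := by
        exact_mod_cast h2
      rw [h3, mul_comm]
    have h2 := LinearMap.congr_fun h1 v
    rw [LinearMap.smul_apply, LinearMap.smul_apply, hv C.ζ C.trdeg, smul_zero, hL, smul_eq_mul] at h2
    have h3 : 0 < dz h.var C.ζ A := dz_pos h.var ⟨A, hA⟩ C.trdeg (res_ample h.var C.ζ _ hA)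
    have h4 : ((dz h.var C.ζ A : ℤ) : ℝ) ≠ 0 := by exact_mod_cast h3.ne'
    exact (mul_eq_zero.1 h2.symm).resolve_left h4
  have h1 : pt b v = pt b 0 := by
    rw [h0]
    unfold pt
    simp
  exact (pt_bij h.var b).1 h1

end Pool.Agent.H83.RT
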