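import Pool.Agent.H41.TK.DG

/-!
# [H83 RT Dvd] THEOREM R (MP_e49dc9_ag), part (7): the degrees on a curve are divisible by the degree of the field of
constants

`e := h0 1 1` is the degree of the field `F` of the constants (`one_inv`).  All spaces of adeles are vector spaces over `F`.
-/

set_option autoImplicit false

namespace Pool.Agent.H83.RT

open Pool.Agent.H54.RV Pool.Agent.H83.TU Pool.Agent.H41.TK

variable {k K : Type} [Field k] [Field K] [Algebra k K] {X : Mod k K}

/-- the field of constants -/
def cst [CharZero k] (h : Crv X) : IntermediateField k K where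
  carrier := {f | f ∈ secL (1 : Cart X) 1}
  mul_mem' := by
    intro a b ha hb x
    have h1 : a * (1 : Cart X).eq x ^ 1 ∈ X.O x := ha x
    have h2 : b * (1 : Cart X).eq x ^ 1 ∈ X.O x := hb x
    rw [one_eq, pow_one, mul_one] at h1 h2 ⊢
    exact (X.O x).mul_mem h1 h2
  add_mem' := fun {a b} ha hb => (secL (1 : Cart X) 1).add_mem ha hb
  algebraMap_mem' := by
    intro c x
    rw [one_eq, pow_one, mul_one]
    exact (X.O x).algebraMap_mem c
  inv_mem' := fun f hf => one_inv h f hf

theorem mem_cst [CharZero k] (h : Crv X) (f : K) : f ∈ cst h ↔ f ∈ secL (1 : Cart X) 1 := Iff.rfl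

theorem cst_O [CharZero k] (h : Crv X) {f : K} (hf : f ∈ cst h) (x : X.P) : f ∈ X.O x := by
  have h1 : f * (1 : Cart X).eq x ^ 1 ∈ X.O x := hf x
  rwa [one_eq, pow_one, mul_one] at h1

theorem fin_cst [CharZero k] (h : Crv X) : Module.finrank k (cst h) = h0 (1 : Cart X) 1 := rfl

theorem qd_dvd {V : Type} [AddCommGroup V] [Module k V] {F : IntermediateField k K} [Module F V] [IsScalarTower k F V]
    (M N : Submodule F V) : Module.finrank k F ∣ qd (M.restrictScalars k) (N.restrictScalars k) := by
  have e : ((M.restrictScalars k : Submodule k V) ⧸ (N.restrictScalars k).submoduleOf (M.restrictScalars k)) ≃ₗ[k]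
      (M ⧸ N.submoduleOf M) :=
    { toFun := fun q => Submodule.liftQ _ ((N.submoduleOf M).mkQ.restrictScalars k) (by
          intro a ha
          rw [LinearMap.mem_ker]
          exact (Submodule.Quotient.mk_eq_zero _).2 ha) q
      map_add' := fun a b => map_add _ a b
      map_smul' := fun a b => map_smul _ a b
      invFun := fun q => Quotient.liftOn' q (fun m => Submodule.Quotient.mk (p := (N.restrictScalars k).submoduleOf (M.restrictScalars k)) (⟨m.1, m.2⟩ : (M.restrictScalars k : Submodule k V))) (by
          intro a b hab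
          rw [Submodule.quotientRel_def] at hab
          exact (Submodule.Quotient.eq _).2 hab)
      left_inv := by
        intro q
        obtain ⟨m, rfl⟩ := Submodule.Quotient.mk_surjective _ q
        rfl
      right_inv := by
        intro q
        obtain ⟨m, rfl⟩ := Submodule.Quotient.mk_surjective _ q
        rfl }
  unfold qd
  rw [e.finrank_eq]
  exact ⟨_, (Module.finrank_mul_finrank k F (M ⧸ N.submoduleOf M)).symm⟩

/-- the degrees are divisible by the degree of the field of constants -/
theorem dg_dvd [CharZero k] (h : Crv X) (D : Cart X) : (h0 (1 : Cart X) 1 : ℤ) ∣ dg D := by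
  obtain ⟨M, hM⟩ : ∃ M : Cart X → Submodule (cst h) (X.P → K), ∀ D, (M D).restrictScalars k = AdD D := by
    refine ⟨fun D =>
      { carrier := {a | ∀ x, a x * D.eq x ∈ X.O x}
        zero_mem' := (AdD D).zero_mem
        add_mem' := fun {a b} ha hb => (AdD D).add_mem ha hb
        smul_mem' := ?_ }, fun D => ?_⟩
    · intro c a ha x
      have h1 : (c • a) x * D.eq x = (c : K) * (a x * D.eq x) := by
        show (c : K) * a x * D.eq x = _
        ring
      rw [h1]
      exact (X.O x).mul_mem (cst_O h c.2 x) (ha x)
    · rfl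
  have h1 := qd_dvd (M D) (M 1)
  have h2 := qd_dvd (M 1) (M D)
  rw [hM, hM, fin_cst] at h1 h2
  unfold dg ix
  exact dvd_sub (Int.natCast_dvd_natCast.2 h1) (Int.natCast_dvd_natCast.2 h2)

end Pool.Agent.H83.RT
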